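import Pool.Agent.MP_7ac2f5_co.Defs

-- part MP_7ac2f5_co.K5
section

/-!
The complete graph on five vertices has no redundantly rigid placement in the plane with the
maximum norm or with the sum norm.
-/

set_option autoImplicit false

open scoped ENNReal Topology
open Filter

namespace Pool.Agent.MP_7ac2f5_co

lemma k5_decomposable : HamiltonDecomposable 2 (⊤ : SimpleGraph (Fin 5)) := by
  let c0 : (⊤ : SimpleGraph (Fin 5)).Walk 0 0 :=
    .cons (v := 1) (by decide) (.cons (v := 2) (by decide) (.cons (v := 3) (by decide)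
      (.cons (v := 4) (by decide) (.cons (v := 0) (by decide) .nil))))
  let c1 : (⊤ : SimpleGraph (Fin 5)).Walk 0 0 :=
    .cons (v := 2) (by decide) (.cons (v := 4) (by decide) (.cons (v := 1) (by decide)
      (.cons (v := 3) (by decide) (.cons (v := 0) (by decide) .nil))))
  refine ⟨fun _ => 0, fun i => if i = 0 then c0 else c1, fun i => ?_, fun e he => ?_⟩
  · rw [SimpleGraph.Walk.isHamiltonianCycle_iff_isCycle_and_length_eq]
    fin_cases i
    · refine ⟨?_, rfl⟩
      simp only [SimpleGraph.Walk.isCycle_def, SimpleGraph.Walk.isTrail_def]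
      refine ⟨by decide, by simp [c0], by decide⟩
    · refine ⟨?_, rfl⟩
      simp only [SimpleGraph.Walk.isCycle_def, SimpleGraph.Walk.isTrail_def]
      refine ⟨by decide, by simp [c1], by decide⟩
  · induction e with
    | h u v =>
      have huv : u ≠ v := he
      have key : ∀ u v : Fin 5, u ≠ v → ∃ i : Fin 2, s(u, v) ∈ (if i = 0 then c0 else c1).edges ∧
          ∀ j : Fin 2, s(u, v) ∈ (if j = 0 then c0 else c1).edges → j = i := by decide
      exact key u v huv

/-- combinatorial core: two linear orders on five points -/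
lemma core (a b : Fin 5 → ℝ) (ha : ∀ u v, u ≠ v → (a u - a v) * (b u - b v) ≠ 0)
    (hp : ∀ v, ∃ u w, u ≠ w ∧ u ≠ v ∧ w ≠ v ∧ 0 < (a u - a v) * (b u - b v) ∧
      0 < (a w - a v) * (b w - b v))
    (hn : ∀ v, ∃ u w, u ≠ w ∧ u ≠ v ∧ w ≠ v ∧ (a u - a v) * (b u - b v) < 0 ∧
      (a w - a v) * (b w - b v) < 0) : False := by
  classical
  have mid : ∀ v, ((∀ u, a v ≤ a u) ∨ ∀ u, a u ≤ a v) →
      2 ≤ (Finset.univ.filter fun u => b v < b u).card ∧
      2 ≤ (Finset.univ.filter fun u => b u < b v).card := by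
    intro v hv
    obtain ⟨u, w, huw, -, -, h1, h2⟩ := hp v
    obtain ⟨u', w', huw', -, -, h1', h2'⟩ := hn v
    rcases hv with hv | hv
    · refine ⟨Finset.one_lt_card.2 ⟨u, ?_, w, ?_, huw⟩, Finset.one_lt_card.2 ⟨u', ?_, w', ?_, huw'⟩⟩
        <;> simp only [Finset.mem_filter, Finset.mem_univ, true_and]
      · by_contra h; nlinarith [hv u]
      · by_contra h; nlinarith [hv w]
      · by_contra h; nlinarith [hv u']
      · by_contra h; nlinarith [hv w']
    · refine ⟨Finset.one_lt_card.2 ⟨u', ?_, w', ?_, huw'⟩, Finset.one_lt_card.2 ⟨u, ?_, w, ?_, huw⟩⟩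
        <;> simp only [Finset.mem_filter, Finset.mem_univ, true_and]
      · by_contra h; nlinarith [hv u']
      · by_contra h; nlinarith [hv w']
      · by_contra h; nlinarith [hv u]
      · by_contra h; nlinarith [hv w]
  have two : ∀ v w, b v < b w → 2 ≤ (Finset.univ.filter fun u => b w < b u).card →
      2 ≤ (Finset.univ.filter fun u => b u < b v).card → False := by
    intro v w hvw h1 h2
    have hd : Disjoint (Finset.univ.filter fun u => b w < b u)
        (Finset.univ.filter fun u => b u < b v) := by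
      rw [Finset.disjoint_filter]
      intro u _ h3 h4
      linarith
    have hsub : (Finset.univ.filter fun u => b w < b u) ∪ (Finset.univ.filter fun u => b u < b v)
        ⊆ (Finset.univ.erase v).erase w := by
      intro u hu
      simp only [Finset.mem_union, Finset.mem_filter, Finset.mem_univ, true_and] at hu
      simp only [Finset.mem_erase, Finset.mem_univ, and_true]
      constructor
      · rintro rfl
        rcases hu with h | h <;> linarith
      · rintro rfl
        rcases hu with h | h <;> linarith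
    have hc := Finset.card_le_card hsub
    have hne : w ≠ v := by rintro rfl; exact lt_irrefl _ hvw
    rw [Finset.card_union_of_disjoint hd, Finset.card_erase_of_mem (by simp [hne]),
      Finset.card_erase_of_mem (by simp)] at hc
    simp only [Finset.card_univ, Fintype.card_fin] at hc
    omega
  obtain ⟨v, hv⟩ := Finite.exists_min a
  obtain ⟨w, hw⟩ := Finite.exists_max a
  have hvw : v ≠ w := by
    rintro rfl
    obtain ⟨u, -, -, hu, -, h1, -⟩ := hp v
    have : a u = a v := le_antisymm (hw u) (hv u)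
    rw [this] at h1
    simp at h1
  have hb : b v ≠ b w := fun h => ha v w hvw (by rw [h]; simp)
  rcases lt_or_gt_of_ne hb with h | h
  · exact two v w h (mid w (Or.inr hw)).1 (mid v (Or.inl hv)).2
  · exact two w v h (mid v (Or.inl hv)).1 (mid w (Or.inr hw)).2

lemma fderiv_eq_zero_of_const {N : (Fin 2 → ℝ) → ℝ} {x h : Fin 2 → ℝ}
    (hd : DifferentiableAt ℝ N x) (hc : ∀ᶠ t in 𝓝 (0 : ℝ), N (x + t • h) = N x) :
    fderiv ℝ N x h = 0 := by
  have h1 : HasDerivAt (fun t : ℝ => x + t • h) h 0 := by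
    simpa using ((hasDerivAt_id (0 : ℝ)).smul_const h).const_add x
  have h2 : HasFDerivAt N (fderiv ℝ N x) (x + (0 : ℝ) • h) := by simpa using hd.hasFDerivAt
  have h3 := h2.comp_hasDerivAt (0 : ℝ) h1
  have h4 : HasDerivAt (N ∘ fun t : ℝ => x + t • h) 0 0 :=
    (hasDerivAt_const (0 : ℝ) (N x)).congr_of_eventuallyEq hc
  exact h3.unique h4

lemma not_diff_of_abs {N : (Fin 2 → ℝ) → ℝ} {x h : Fin 2 → ℝ} {c : ℝ}
    (hc : ∀ t : ℝ, N (x + t • h) = c + |t|) : ¬ DifferentiableAt ℝ N x := by
  intro hd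
  have h1 : DifferentiableAt ℝ (fun t : ℝ => x + t • h) 0 := by fun_prop
  have h2 : DifferentiableAt ℝ N (x + (0 : ℝ) • h) := by simpa using hd
  have h3 := (h2.comp (0 : ℝ) h1).sub_const c
  apply not_differentiableAt_abs_zero
  refine h3.congr_of_eventuallyEq (Eventually.of_forall fun t => ?_)
  simp [hc]

/-- abstract form of the obstruction -/
lemma no_redundant (q : ℝ≥0∞) (α β : (Fin 2 → ℝ) →ₗ[ℝ] ℝ) (hpos hneg : Fin 2 → ℝ)
    (h1 : hpos ≠ 0) (h2 : hneg ≠ 0)
    (hd : ∀ x, DifferentiableAt ℝ (lqNorm q 2) x → α x * β x ≠ 0)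
    (hp : ∀ x, 0 < α x * β x → ∀ᶠ t in 𝓝 (0 : ℝ), lqNorm q 2 (x + t • hpos) = lqNorm q 2 x)
    (hn : ∀ x, α x * β x < 0 → ∀ᶠ t in 𝓝 (0 : ℝ), lqNorm q 2 (x + t • hneg) = lqNorm q 2 x)
    (p : Fin 5 → Fin 2 → ℝ) : ¬ RedundantlyRigid q 2 (⊤ : SimpleGraph (Fin 5)) p := by
  classical
  rintro ⟨hR, hE⟩
  have hne : ∀ u v, u ≠ v → α (p u - p v) * β (p u - p v) ≠ 0 := fun u v h => hd _ (hR.1 u v h)
  have hsymm : ∀ u v, α (p u - p v) * β (p u - p v) = α (p v - p u) * β (p v - p u) := by
    intro u v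
    simp only [map_sub]
    ring
  -- moving one vertex
  have move : ∀ (G : SimpleGraph (Fin 5)) (h : Fin 2 → ℝ) (P : ℝ → Prop), h ≠ 0 →
      (∀ x, P (α x * β x) → ∀ᶠ t in 𝓝 (0 : ℝ), lqNorm q 2 (x + t • h) = lqNorm q 2 x) →
      Rigid q 2 G p → ∀ v, ∃ u, G.Adj u v ∧ ¬ P (α (p u - p v) * β (p u - p v)) := by
    intro G h P hh hP hG v
    by_contra hc
    push Not at hc
    have hf : IsFlex q 2 G p fun w => if w = v then h else 0 := by
      intro u w huw
      dsimp only
      by_cases hu : u = v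
      · have hw : w ≠ v := fun h => huw.ne (hu.trans h.symm)
        rw [if_pos hu, if_neg hw, sub_zero]
        refine fderiv_eq_zero_of_const (hG.1 u w huw) (hP _ ?_)
        rw [hsymm, hu]
        exact hc w (hu ▸ huw.symm)
      · by_cases hw : w = v
        · rw [if_neg hu, if_pos hw, zero_sub, map_neg, neg_eq_zero]
          refine fderiv_eq_zero_of_const (hG.1 u w huw) (hP _ ?_)
          rw [hw]
          exact hc u (hw ▸ huw)
        · rw [if_neg hu, if_neg hw, sub_zero, map_zero]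
    obtain ⟨w, hw⟩ := exists_ne v
    have := hG.2 _ hf v w
    simp only [if_true, if_neg hw] at this
    exact hh this
  have twice : ∀ (h : Fin 2 → ℝ) (P : ℝ → Prop), h ≠ 0 →
      (∀ x, P (α x * β x) → ∀ᶠ t in 𝓝 (0 : ℝ), lqNorm q 2 (x + t • h) = lqNorm q 2 x) →
      ∀ v, ∃ u w, u ≠ w ∧ u ≠ v ∧ w ≠ v ∧ ¬ P (α (p u - p v) * β (p u - p v)) ∧
        ¬ P (α (p w - p v) * β (p w - p v)) := by
    intro h P hh hP v
    obtain ⟨u, hu, hu'⟩ := move _ h P hh hP hR v
    obtain ⟨w, hw, hw'⟩ := move _ h P hh hP (hE s(u, v) hu) v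
    rw [SimpleGraph.deleteEdges_adj] at hw
    refine ⟨u, w, ?_, hu.ne, hw.1.ne, hu', hw'⟩
    rintro rfl
    exact hw.2 rfl
  refine core (fun u => α (p u)) (fun u => β (p u)) ?_ ?_ ?_
  · intro u v h
    simpa only [map_sub] using hne u v h
  · intro v
    obtain ⟨u, w, h3, h4, h5, h6, h7⟩ := twice hneg (· < 0) h2 hn v
    refine ⟨u, w, h3, h4, h5, ?_, ?_⟩
    · simpa only [map_sub] using lt_of_le_of_ne (not_lt.1 h6) (hne u v h4).symm
    · simpa only [map_sub] using lt_of_le_of_ne (not_lt.1 h7) (hne w v h5).symm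
  · intro v
    obtain ⟨u, w, h3, h4, h5, h6, h7⟩ := twice hpos (0 < ·) h1 hp v
    refine ⟨u, w, h3, h4, h5, ?_, ?_⟩
    · simpa only [map_sub] using lt_of_le_of_ne (not_lt.1 h6) (hne u v h4)
    · simpa only [map_sub] using lt_of_le_of_ne (not_lt.1 h7) (hne w v h5)

lemma lqNorm_top (x : Fin 2 → ℝ) : lqNorm ∞ 2 x = max |x 0| |x 1| := by
  unfold lqNorm
  rw [PiLp.norm_toLp]
  apply le_antisymm
  · refine (pi_norm_le_iff_of_nonneg (by positivity)).2 fun i => ?_
    fin_cases i
    · exact le_max_left _ _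
    · exact le_max_right _ _
  · exact max_le (norm_le_pi_norm x 0) (norm_le_pi_norm x 1)

lemma lqNorm_one (x : Fin 2 → ℝ) : lqNorm 1 2 x = |x 0| + |x 1| := by
  unfold lqNorm
  rw [PiLp.norm_eq_of_L1]
  simp

lemma eventually_abs_lt {ε : ℝ} (h : 0 < ε) : ∀ᶠ t in 𝓝 (0 : ℝ), |t| < ε := by
  have := Metric.ball_mem_nhds (0 : ℝ) h
  filter_upwards [this] with t ht
  simpa using ht

theorem k5_top (p : Fin 5 → Fin 2 → ℝ) :
    ¬ RedundantlyRigid ∞ 2 (⊤ : SimpleGraph (Fin 5)) p := by
  refine no_redundant ∞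
    ((LinearMap.proj 0 : (Fin 2 → ℝ) →ₗ[ℝ] ℝ) + (LinearMap.proj 1 : (Fin 2 → ℝ) →ₗ[ℝ] ℝ))
    ((LinearMap.proj 0 : (Fin 2 → ℝ) →ₗ[ℝ] ℝ) - (LinearMap.proj 1 : (Fin 2 → ℝ) →ₗ[ℝ] ℝ))
    ![0, 1] ![1, 0] (fun h => by simpa using congrFun h 1) (fun h => by simpa using congrFun h 0)
    ?_ ?_ ?_ p
  · intro x hx h
    simp only [LinearMap.add_apply, LinearMap.sub_apply, LinearMap.proj_apply] at h
    rcases mul_eq_zero.1 h with h | h
    · refine not_diff_of_abs (h := ![1, 1]) (c := |x 0|) (fun t => ?_) hx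
      have h' : x 1 = -x 0 := by linarith
      simp only [lqNorm_top, Pi.add_apply, Pi.smul_apply, Matrix.cons_val_zero,
        Matrix.cons_val_one, smul_eq_mul, mul_one, h']
      rcases abs_cases (x 0) with h1 | h1 <;> rcases abs_cases t with h2 | h2 <;>
        rcases abs_cases (x 0 + t) with h3 | h3 <;> rcases abs_cases (-x 0 + t) with h4 | h4 <;>
        rcases max_cases |x 0 + t| |-x 0 + t| with h5 | h5 <;> linarith
    · refine not_diff_of_abs (h := ![1, -1]) (c := |x 0|) (fun t => ?_) hx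
      have h' : x 1 = x 0 := by linarith
      simp only [lqNorm_top, Pi.add_apply, Pi.smul_apply, Matrix.cons_val_zero,
        Matrix.cons_val_one, smul_eq_mul, mul_one, mul_neg, h']
      rcases abs_cases (x 0) with h1 | h1 <;> rcases abs_cases t with h2 | h2 <;>
        rcases abs_cases (x 0 + t) with h3 | h3 <;> rcases abs_cases (x 0 + -t) with h4 | h4 <;>
        rcases max_cases |x 0 + t| |x 0 + -t| with h5 | h5 <;> linarith
  · intro x hx
    simp only [LinearMap.add_apply, LinearMap.sub_apply, LinearMap.proj_apply] at hx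
    have h : |x 1| < |x 0| := by
      rw [← sq_lt_sq]; nlinarith
    filter_upwards [eventually_abs_lt (sub_pos.2 h)] with t ht
    simp only [lqNorm_top, Pi.add_apply, Pi.smul_apply, Matrix.cons_val_zero,
      Matrix.cons_val_one, smul_eq_mul, mul_one, mul_zero, add_zero]
    rw [max_eq_left h.le, max_eq_left]
    linarith [abs_add_le (x 1) t]
  · intro x hx
    simp only [LinearMap.add_apply, LinearMap.sub_apply, LinearMap.proj_apply] at hx
    have h : |x 0| < |x 1| := by
      rw [← sq_lt_sq]; nlinarith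
    filter_upwards [eventually_abs_lt (sub_pos.2 h)] with t ht
    simp only [lqNorm_top, Pi.add_apply, Pi.smul_apply, Matrix.cons_val_zero,
      Matrix.cons_val_one, smul_eq_mul, mul_one, mul_zero, add_zero]
    rw [max_eq_right h.le, max_eq_right]
    linarith [abs_add_le (x 0) t]

theorem k5_one (p : Fin 5 → Fin 2 → ℝ) :
    ¬ RedundantlyRigid 1 2 (⊤ : SimpleGraph (Fin 5)) p := by
  refine no_redundant 1 (LinearMap.proj 0) (LinearMap.proj 1)
    ![1, -1] ![1, 1] (fun h => by simpa using congrFun h 0) (fun h => by simpa using congrFun h 0)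
    ?_ ?_ ?_ p
  · intro x hx h
    simp only [LinearMap.proj_apply] at h
    rcases mul_eq_zero.1 h with h | h
    · refine not_diff_of_abs (h := ![1, 0]) (c := |x 1|) (fun t => ?_) hx
      simp only [lqNorm_one, Pi.add_apply, Pi.smul_apply, Matrix.cons_val_zero,
        Matrix.cons_val_one, smul_eq_mul, mul_one, mul_zero, add_zero, h, zero_add]
      ring
    · refine not_diff_of_abs (h := ![0, 1]) (c := |x 0|) (fun t => ?_) hx
      simp only [lqNorm_one, Pi.add_apply, Pi.smul_apply, Matrix.cons_val_zero,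
        Matrix.cons_val_one, smul_eq_mul, mul_one, mul_zero, add_zero, h, zero_add]
  · intro x hx
    simp only [LinearMap.proj_apply] at hx
    have h0 : 0 < |x 0| := abs_pos.2 (left_ne_zero_of_mul hx.ne')
    have h1 : 0 < |x 1| := abs_pos.2 (right_ne_zero_of_mul hx.ne')
    filter_upwards [eventually_abs_lt h0, eventually_abs_lt h1] with t ht ht'
    simp only [lqNorm_one, Pi.add_apply, Pi.smul_apply, Matrix.cons_val_zero,
      Matrix.cons_val_one, smul_eq_mul, mul_one, mul_neg]
    rcases pos_and_pos_or_neg_and_neg_of_mul_pos hx with h | h <;>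
      rcases abs_cases (x 0) with h1 | h1 <;> rcases abs_cases (x 1) with h2 | h2 <;>
      rcases abs_cases t with h3 | h3 <;>
      rcases abs_cases (x 0 + t) with h4 | h4 <;> rcases abs_cases (x 1 + -t) with h5 | h5 <;>
      linarith
  · intro x hx
    simp only [LinearMap.proj_apply] at hx
    have h0 : 0 < |x 0| := abs_pos.2 (left_ne_zero_of_mul hx.ne)
    have h1 : 0 < |x 1| := abs_pos.2 (right_ne_zero_of_mul hx.ne)
    filter_upwards [eventually_abs_lt h0, eventually_abs_lt h1] with t ht ht'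
    simp only [lqNorm_one, Pi.add_apply, Pi.smul_apply, Matrix.cons_val_zero,
      Matrix.cons_val_one, smul_eq_mul, mul_one]
    rcases mul_neg_iff.1 hx with h | h <;>
      rcases abs_cases (x 0) with h1 | h1 <;> rcases abs_cases (x 1) with h2 | h2 <;>
      rcases abs_cases t with h3 | h3 <;>
      rcases abs_cases (x 0 + t) with h4 | h4 <;> rcases abs_cases (x 1 + t) with h5 | h5 <;>
      linarith

end Pool.Agent.MP_7ac2f5_co

end

-- part MP_7ac2f5_co.Generic
section

/-!
Exponential sums, generic placements, and the derivative of the `q`-norm.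
-/

set_option autoImplicit false

open scoped ENNReal Topology
open Filter

namespace Pool.Agent.MP_7ac2f5_co

lemma finite_zeros_of_deriv {g g' : ℝ → ℝ} (hg : ∀ s, HasDerivAt g (g' s) s)
    (h : {s | g' s = 0}.Finite) : {s | g s = 0}.Finite := by
  classical
  let φ : ℝ → ℕ := fun z => (h.toFinset.filter (· < z)).card
  have hlt : ∀ a b, g a = 0 → g b = 0 → a < b → φ a < φ b := by
    intro a b ha hb hab
    obtain ⟨c, hc, hc'⟩ := exists_hasDerivAt_eq_zero hab
      (fun x _ => (hg x).continuousAt.continuousWithinAt) (ha.trans hb.symm) fun x _ => hg x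
    refine Finset.card_lt_card ⟨fun x hx => ?_, fun hsub => ?_⟩
    · simp only [Finset.mem_filter] at hx ⊢
      exact ⟨hx.1, hx.2.trans hab⟩
    · have : c ∈ h.toFinset.filter (· < b) := by
        simp only [Finset.mem_filter, Set.Finite.mem_toFinset]
        exact ⟨hc', hc.2⟩
      have := hsub this
      simp only [Finset.mem_filter] at this
      exact absurd this.2 (not_lt.2 hc.1.le)
  refine Set.Finite.of_finite_image (f := φ) ((Set.finite_le_nat h.toFinset.card).subset ?_) ?_
  · rintro _ ⟨z, -, rfl⟩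
    exact Finset.card_filter_le _ _
  · intro a ha b hb hab
    rcases lt_trichotomy a b with h1 | h1 | h1
    · exact absurd hab (hlt a b ha hb h1).ne
    · exact h1
    · exact absurd hab (hlt b a hb ha h1).ne'

lemma finite_zeros_exp {ι : Type} [DecidableEq ι] (F : Finset ι) :
    ∀ (c l : ι → ℝ), Set.InjOn l F → (∃ i ∈ F, c i ≠ 0) →
      {s : ℝ | ∑ i ∈ F, c i * Real.exp (l i * s) = 0}.Finite := by
  induction F using Finset.induction_on with
  | empty => rintro c l - ⟨i, hi, -⟩; simp at hi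
  | insert j F hj ih =>
    rintro c l hl hc
    by_cases h0 : ∃ i ∈ F, c i ≠ 0
    · have hfin := ih (fun i => c i * (l i - l j)) (fun i => l i - l j)
        (fun a ha b hb hab => hl (Finset.mem_insert_of_mem ha) (Finset.mem_insert_of_mem hb)
          (by simpa using hab))
        (by
          obtain ⟨i, hi, hci⟩ := h0
          refine ⟨i, hi, mul_ne_zero hci (sub_ne_zero.2 fun h => hj ?_)⟩
          have := hl (Finset.mem_insert_of_mem hi) (Finset.mem_insert_self j F) h
          exact this ▸ hi)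
      have hg : ∀ s, HasDerivAt (fun s => c j + ∑ i ∈ F, c i * Real.exp ((l i - l j) * s))
          (∑ i ∈ F, c i * (l i - l j) * Real.exp ((l i - l j) * s)) s := by
        intro s
        refine HasDerivAt.const_add _ (HasDerivAt.fun_sum fun i _ => ?_)
        have h1 : HasDerivAt (fun s => (l i - l j) * s) (l i - l j) s := by
          simpa using (hasDerivAt_id s).const_mul (l i - l j)
        have h2 := (h1.exp).const_mul (c i)
        have e : c i * (l i - l j) * Real.exp ((l i - l j) * s)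
            = c i * (Real.exp ((l i - l j) * s) * (l i - l j)) := by ring
        rw [e]
        exact h2
      refine (finite_zeros_of_deriv hg hfin).subset fun s hs => ?_
      simp only [Set.mem_ofPred_eq, Finset.sum_insert hj] at hs ⊢
      have e : c j + ∑ i ∈ F, c i * Real.exp ((l i - l j) * s)
          = (c j * Real.exp (l j * s) + ∑ i ∈ F, c i * Real.exp (l i * s))
            * Real.exp (-(l j * s)) := by
        rw [add_mul, Finset.sum_mul, mul_assoc, ← Real.exp_add, add_neg_cancel, Real.exp_zero,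
          mul_one]
        congr 1
        refine Finset.sum_congr rfl fun i _ => ?_
        rw [mul_assoc, ← Real.exp_add]
        congr 2
        ring
      rw [e, hs, zero_mul]
    · push Not at h0
      have hcj : c j ≠ 0 := by
        obtain ⟨i, hi, hci⟩ := hc
        rcases Finset.mem_insert.1 hi with rfl | h
        · exact hci
        · exact absurd (h0 i h) hci
      refine Set.finite_empty.subset fun s hs => ?_
      simp only [Set.mem_ofPred_eq, Finset.sum_insert hj] at hs
      rw [Finset.sum_eq_zero fun i hi => by rw [h0 i hi, zero_mul], add_zero] at hs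
      exact absurd hs (mul_ne_zero hcj (Real.exp_pos _).ne')

/-- squared coordinate difference along an unordered pair -/
def sqd {V R : Type} [CommRing R] {d : ℕ} (p : V → Fin d → R) (x : Sym2 V × Fin d) : R :=
  Sym2.lift ⟨fun u w => (p u x.2 - p w x.2) ^ 2, fun u w => by ring⟩ x.1

lemma sqd_mk {V R : Type} [CommRing R] {d : ℕ} (p : V → Fin d → R) (u w : V) (k : Fin d) :
    sqd p (s(u, w), k) = (p u k - p w k) ^ 2 := rfl

/-- generic placements -/
structure Generic {V : Type} {d : ℕ} (p : V → Fin d → ℝ) : Prop where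
  ne : ∀ u w k, u ≠ w → p u k ≠ p w k
  sep : ∀ S S' : Finset (Sym2 V × Fin d), (∀ x ∈ S, ¬ x.1.IsDiag) → (∀ x ∈ S', ¬ x.1.IsDiag) →
    ∏ x ∈ S, sqd p x = ∏ x ∈ S', sqd p x → S = S'

lemma eval_sqd {V : Type} {d : ℕ} (y : V × Fin d → ℝ) (x : Sym2 V × Fin d) :
    MvPolynomial.eval y (sqd (fun u k => (MvPolynomial.X (u, k) : MvPolynomial (V × Fin d) ℝ)) x)
      = sqd (fun u k => y (u, k)) x := by
  obtain ⟨e, k⟩ := x
  induction e with
  | h u w => simp [sqd_mk]

lemma exists_kill {V : Type} [Fintype V] {d : ℕ} (x0 : Sym2 V × Fin d) :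
    ∃ p : V → Fin d → ℝ, sqd p x0 = 0 ∧ ∀ x : Sym2 V × Fin d, ¬ x.1.IsDiag → x ≠ x0 →
      sqd p x ≠ 0 := by
  classical
  obtain ⟨e, k⟩ := x0
  induction e with
  | h u w =>
    let φ : V → ℝ := fun v => ((Fintype.equivFin V v : ℕ) : ℝ)
    have hφ : Function.Injective φ := fun a b h =>
      (Fintype.equivFin V).injective (Fin.ext (Nat.cast_injective h))
    refine ⟨fun v l => if l = k ∧ v = w then φ u else φ v, by simp [sqd_mk], ?_⟩
    rintro ⟨e, l⟩ hd hne
    induction e with
    | h a b =>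
      have hab : a ≠ b := by simpa using hd
      rw [sqd_mk]
      refine pow_ne_zero _ (sub_ne_zero.2 ?_)
      split_ifs with h1 h2 h2
      · exact absurd (h1.2.trans h2.2.symm) hab
      · intro h
        apply hne
        rw [h1.1, h1.2, ← hφ h, Sym2.eq_swap]
      · intro h
        apply hne
        rw [h2.1, h2.2, hφ h]
      · exact fun h => hab (hφ h)

lemma exists_generic (V : Type) [Fintype V] (d : ℕ) : ∃ p : V → Fin d → ℝ, Generic p := by
  classical
  let X : V → Fin d → MvPolynomial (V × Fin d) ℝ := fun u k => MvPolynomial.X (u, k)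
  let A : Finset (Finset (Sym2 V × Fin d) × Finset (Sym2 V × Fin d)) :=
    Finset.univ.filter fun z => (∀ x ∈ z.1, ¬ x.1.IsDiag) ∧ (∀ x ∈ z.2, ¬ x.1.IsDiag) ∧ z.1 ≠ z.2
  let B : Finset (V × V × Fin d) := Finset.univ.filter fun z => z.1 ≠ z.2.1
  have aux : ∀ S S' : Finset (Sym2 V × Fin d), (∀ x ∈ S', ¬ x.1.IsDiag) → ∀ x0 ∈ S, x0 ∉ S' →
      ∏ x ∈ S, sqd X x ≠ ∏ x ∈ S', sqd X x := by
    intro S S' hS' x0 h0 h0' h
    obtain ⟨p, hp, hp'⟩ := exists_kill x0
    have := congrArg (MvPolynomial.eval fun z : V × Fin d => p z.1 z.2) h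
    simp only [map_prod, X, eval_sqd] at this
    rw [Finset.prod_eq_zero h0 hp] at this
    refine Finset.prod_ne_zero_iff.2 (fun x hx => hp' x (hS' x hx) ?_) this.symm
    rintro rfl
    exact h0' hx
  have hA : ∏ z ∈ A, (∏ x ∈ z.1, sqd X x - ∏ x ∈ z.2, sqd X x) ≠ 0 := by
    refine Finset.prod_ne_zero_iff.2 fun z hz => sub_ne_zero.2 ?_
    obtain ⟨h1, h2, h3⟩ := (Finset.mem_filter.1 hz).2
    by_cases h : z.1 ⊆ z.2
    · obtain ⟨x0, h4, h5⟩ := Finset.exists_of_ssubset (h.ssubset_of_ne h3)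
      exact (aux _ _ h1 x0 h4 h5).symm
    · obtain ⟨x0, h4, h5⟩ := Finset.not_subset.1 h
      exact aux _ _ h2 x0 h4 h5
  have hB : ∏ z ∈ B, (X z.1 z.2.2 - X z.2.1 z.2.2) ≠ 0 := by
    refine Finset.prod_ne_zero_iff.2 fun z hz => sub_ne_zero.2 fun h => ?_
    have := MvPolynomial.X_injective h
    exact (Finset.mem_filter.1 hz).2 (congrArg Prod.fst this)
  obtain ⟨y, hy⟩ : ∃ y : V × Fin d → ℝ, MvPolynomial.eval y
      ((∏ z ∈ A, (∏ x ∈ z.1, sqd X x - ∏ x ∈ z.2, sqd X x)) *
        ∏ z ∈ B, (X z.1 z.2.2 - X z.2.1 z.2.2)) ≠ 0 := by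
    by_contra h
    push Not at h
    exact mul_ne_zero hA hB (MvPolynomial.funext fun y => by rw [h y, map_zero])
  rw [map_mul, map_prod, map_prod] at hy
  refine ⟨fun u k => y (u, k), fun u w k huw => ?_, fun S S' h1 h2 h => ?_⟩
  · have := Finset.prod_ne_zero_iff.1 (right_ne_zero_of_mul hy) (u, w, k)
      (Finset.mem_filter.2 ⟨Finset.mem_univ _, huw⟩)
    simpa [X, sub_ne_zero] using this
  · by_contra hne
    have := Finset.prod_ne_zero_iff.1 (left_ne_zero_of_mul hy) (S, S')
      (Finset.mem_filter.2 ⟨Finset.mem_univ _, h1, h2, hne⟩)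
    simp only [map_sub, map_prod, X, eval_sqd] at this
    exact this (sub_eq_zero.2 h)

lemma lqNorm_ofReal {q : ℝ} (hq : 1 < q) (d : ℕ) :
    lqNorm (ENNReal.ofReal q) d = fun x => (∑ k, |x k| ^ q) ^ (1 / q) := by
  funext x
  have h : (ENNReal.ofReal q).toReal = q := ENNReal.toReal_ofReal (by linarith)
  unfold lqNorm
  rw [PiLp.norm_eq_sum (by rw [h]; linarith), h]
  simp

lemma lq_deriv {q : ℝ} (hq : 1 < q) {d : ℕ} {x : Fin d → ℝ} (hx : ∃ k, x k ≠ 0) :
    DifferentiableAt ℝ (lqNorm (ENNReal.ofReal q) d) x ∧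
      ∀ h, fderiv ℝ (lqNorm (ENNReal.ofReal q) d) x h = 0 →
        ∑ k, |x k| ^ (q - 2) * x k * h k = 0 := by
  rw [lqNorm_ofReal hq]
  have hS : 0 < ∑ k, |x k| ^ q := by
    obtain ⟨k, hk⟩ := hx
    exact Finset.sum_pos' (fun i _ => by positivity)
      ⟨k, Finset.mem_univ _, Real.rpow_pos_of_pos (abs_pos.2 hk) _⟩
  have h1 : HasFDerivAt (fun y : Fin d → ℝ => ∑ k, |y k| ^ q)
      (∑ k, (q * |x k| ^ (q - 2) * x k) • (ContinuousLinearMap.proj k : (Fin d → ℝ) →L[ℝ] ℝ)) x :=
    HasFDerivAt.fun_sum fun k _ => by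
      have h0 : HasFDerivAt (fun y : Fin d → ℝ => y k)
        (ContinuousLinearMap.proj k : (Fin d → ℝ) →L[ℝ] ℝ) x := hasFDerivAt_apply k x
      exact (hasDerivAt_abs_rpow (x k) hq).comp_hasFDerivAt x h0
  have h2 := h1.rpow_const (p := 1 / q) (Or.inl hS.ne')
  refine ⟨h2.differentiableAt, fun h hh => ?_⟩
  rw [h2.fderiv] at hh
  simp only [smul_apply, sum_apply,
    ContinuousLinearMap.proj_apply, smul_eq_mul] at hh
  have h3 : (1 / q * (∑ k, |x k| ^ q) ^ (1 / q - 1)) ≠ 0 :=
    mul_ne_zero (by positivity) (Real.rpow_pos_of_pos hS _).ne'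
  have h4 := (mul_eq_zero.1 hh).resolve_left h3
  have h5 : ∑ k, q * |x k| ^ (q - 2) * x k * h k = q * ∑ k, |x k| ^ (q - 2) * x k * h k := by
    rw [Finset.mul_sum]
    exact Finset.sum_congr rfl fun k _ => by ring
  rw [h5] at h4
  exact (mul_eq_zero.1 h4).resolve_left (by linarith)

end Pool.Agent.MP_7ac2f5_co

end

-- part MP_7ac2f5_co.Packing
section

/-!
A graph with `d` edge-disjoint connected spanning subgraphs is rigid at a generic placement for
all but finitely many exponents.
-/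

set_option autoImplicit false

open scoped ENNReal Topology
open Filter

namespace Pool.Agent.MP_7ac2f5_co

lemma exists_parent {V : Type} {C : SimpleGraph V} (hC : C.Connected) (v0 v : V) (hv : v ≠ v0) :
    ∃ w, C.Adj v w ∧ C.dist w v0 < C.dist v v0 := by
  obtain ⟨p, hp⟩ := hC.exists_walk_length_eq_dist v v0
  cases p with
  | nil => exact absurd rfl hv
  | cons h p' =>
    refine ⟨_, h, ?_⟩
    rw [← hp, SimpleGraph.Walk.length_cons]
    exact Nat.lt_succ_of_le (SimpleGraph.dist_le p')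

/-- signed incidence row of the pair `(a, b)` in the block `l` -/
def incRow {V : Type} [DecidableEq V] {d : ℕ} (v0 a b : V) (l : Fin d) :
    {v // v ≠ v0} × Fin d → ℝ := fun j =>
  if j.2 = l then (if j.1.1 = a then 1 else 0) - (if j.1.1 = b then 1 else 0) else 0

lemma sum_ite_pinned {V : Type} [Fintype V] [DecidableEq V] (v0 a : V) (f : V → ℝ)
    (hf : f v0 = 0) : ∑ w : {v // v ≠ v0}, (if w.1 = a then 1 else 0) * f w.1 = f a := by
  by_cases ha : a = v0
  · subst ha
    rw [hf]
    exact Finset.sum_eq_zero fun w _ => by simp [w.2]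
  · rw [Finset.sum_eq_single ⟨a, ha⟩]
    · simp
    · intro w _ hw
      rw [if_neg (fun h => hw (Subtype.ext h)), zero_mul]
    · simp

lemma incRow_dot {V : Type} [Fintype V] [DecidableEq V] {d : ℕ} (v0 a b : V) (l : Fin d)
    (m : V → Fin d → ℝ) (hm : m v0 = 0) :
    incRow v0 a b l ⬝ᵥ (fun j => m j.1.1 j.2) = m a l - m b l := by
  unfold incRow dotProduct
  rw [Fintype.sum_prod_type]
  have h0 : m v0 l = 0 := by rw [hm]; rfl
  rw [← sum_ite_pinned v0 a (fun v => m v l) h0, ← sum_ite_pinned v0 b (fun v => m v l) h0,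
    ← Finset.sum_sub_distrib]
  refine Finset.sum_congr rfl fun w _ => ?_
  rw [Finset.sum_eq_single l]
  · simp only [if_true]
    ring
  · intro k _ hk
    simp [hk]
  · simp

theorem finite_bad {V : Type} [Fintype V] [DecidableEq V] {d : ℕ} (hd : 0 < d)
    {G : SimpleGraph V} (C : Fin d → SimpleGraph V) (hC : ∀ k, (C k).Connected)
    (hle : ∀ k, C k ≤ G) (hdis : ∀ u w k l, (C k).Adj u w → (C l).Adj u w → k = l)
    {p : V → Fin d → ℝ} (hp : Generic p) :
    {q : ℝ | 1 < q ∧ ¬ Rigid (ENNReal.ofReal q) d G p}.Finite := by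
  classical
  obtain ⟨v0⟩ := (hC ⟨0, hd⟩).nonempty
  choose par hpar hdist using fun (i : {v // v ≠ v0} × Fin d) =>
    exists_parent (hC i.2) v0 i.1.1 i.1.2
  let r : {v // v ≠ v0} × Fin d → Fin d → {v // v ≠ v0} × Fin d → ℝ :=
    fun i l => incRow v0 i.1.1 (par i) l
  let Δ : {v // v ≠ v0} × Fin d → Fin d → ℝ := fun i l => p i.1.1 l - p (par i) l
  have hΔ : ∀ i l, Δ i l ≠ 0 := fun i l => sub_ne_zero.2 (hp.ne _ _ l (hpar i).ne)
  let M : ℝ → Matrix ({v // v ≠ v0} × Fin d) ({v // v ≠ v0} × Fin d) ℝ :=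
    fun q => Matrix.of fun i => ∑ l, (|Δ i l| ^ (q - 2) * Δ i l) • r i l
  let lam : ({v // v ≠ v0} × Fin d → Fin d) → ℝ := fun c => ∑ i, Real.log |Δ i (c i)|
  let coef : ({v // v ≠ v0} × Fin d → Fin d) → ℝ := fun c =>
    (Matrix.of fun i => r i (c i)).det * (∏ i, Δ i (c i)) * Real.exp (lam c * (-2))
  have hdet : ∀ q, (M q).det = ∑ c, coef c * Real.exp (lam c * q) := by
    intro q
    have h1 := (Matrix.detRowAlternating (R := ℝ) (n := {v // v ≠ v0} × Fin d)).toMultilinearMap.map_sum
      (fun i l => (|Δ i l| ^ (q - 2) * Δ i l) • r i l)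
    refine h1.trans (Finset.sum_congr rfl fun c _ => ?_)
    have h2 := (Matrix.detRowAlternating (R := ℝ) (n := {v // v ≠ v0} × Fin d)).toMultilinearMap.map_smul_univ
      (fun i => |Δ i (c i)| ^ (q - 2) * Δ i (c i)) (fun i => r i (c i))
    refine h2.trans ?_
    have h3 : ∏ i, |Δ i (c i)| ^ (q - 2) = Real.exp (lam c * (q - 2)) := by
      simp only [lam]
      rw [Finset.sum_mul, Real.exp_sum]
      exact Finset.prod_congr rfl fun i _ => Real.rpow_def_of_pos (abs_pos.2 (hΔ i _)) _
    have h4 : Real.exp (lam c * (q - 2)) = Real.exp (lam c * (-2)) * Real.exp (lam c * q) := by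
      rw [← Real.exp_add]
      congr 1
      ring
    rw [Finset.prod_mul_distrib, h3, h4, smul_eq_mul]
    change _ * (Matrix.of fun i => r i (c i)).det = _
    simp only [coef]
    ring
  have hedge : ∀ i i' : {v // v ≠ v0} × Fin d, s(i.1.1, par i) = s(i'.1.1, par i') → i = i' := by
    intro i i' h
    have h1 := hpar i
    have h2 := hpar i'
    have hk : i.2 = i'.2 := by
      refine hdis _ _ _ _ h1 ?_
      rw [← SimpleGraph.mem_edgeSet, h]
      exact h2
    rcases Sym2.eq_iff.1 h with ⟨h3, -⟩ | ⟨h3, h4⟩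
    · exact Prod.ext (Subtype.ext h3) hk
    · have h5 := hdist i
      have h6 := hdist i'
      rw [← hk, ← h3, ← h4] at h6
      omega
  have hlam : Function.Injective lam := by
    intro c c' h
    have e : ∀ c : {v // v ≠ v0} × Fin d → Fin d,
        ∏ x ∈ Finset.univ.image fun i => (s(i.1.1, par i), c i), sqd p x
          = Real.exp (lam c) ^ 2 := by
      intro c
      rw [Finset.prod_image fun i _ i' _ h => hedge i i' (congrArg Prod.fst h)]
      simp only [lam]
      rw [Real.exp_sum, ← Finset.prod_pow]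
      refine Finset.prod_congr rfl fun i _ => ?_
      rw [Real.exp_log (abs_pos.2 (hΔ i _)), sq_abs, sqd_mk]
    have nd : ∀ c : {v // v ≠ v0} × Fin d → Fin d,
        ∀ x ∈ Finset.univ.image fun i => (s(i.1.1, par i), c i), ¬ x.1.IsDiag := by
      intro c x hx
      obtain ⟨i, -, rfl⟩ := Finset.mem_image.1 hx
      simpa using (hpar i).ne
    have hS := hp.sep _ _ (nd c) (nd c') (by rw [e, e, h])
    funext i
    have : (s(i.1.1, par i), c i) ∈ Finset.univ.image fun i => (s(i.1.1, par i), c' i) :=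
      hS ▸ Finset.mem_image_of_mem _ (Finset.mem_univ i)
    obtain ⟨i', -, h'⟩ := Finset.mem_image.1 this
    obtain rfl := hedge _ _ (congrArg Prod.fst h')
    exact (congrArg Prod.snd h').symm
  have hcoef : coef (fun i => i.2) ≠ 0 := by
    refine mul_ne_zero (mul_ne_zero (fun h => ?_) (Finset.prod_ne_zero_iff.2 fun i _ => hΔ i _))
      (Real.exp_pos _).ne'
    obtain ⟨v, hv0, hv⟩ := Matrix.exists_mulVec_eq_zero_iff.2 h
    let m : V → Fin d → ℝ := fun w l => if h : w = v0 then 0 else v (⟨w, h⟩, l)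
    have hm0 : m v0 = 0 := by funext l; simp [m]
    have hvm : v = fun j => m j.1.1 j.2 := by
      funext j
      simp [m, j.1.2]
    have hstep : ∀ i : {v // v ≠ v0} × Fin d, m i.1.1 i.2 = m (par i) i.2 := by
      intro i
      have h1 : r i i.2 ⬝ᵥ v = 0 := congrFun hv i
      rw [hvm, incRow_dot _ _ _ _ _ hm0] at h1
      exact sub_eq_zero.1 h1
    have hall : ∀ (k : Fin d) (n : ℕ) (w : V), (C k).dist w v0 = n → m w k = 0 := by
      intro k n
      induction n using Nat.strong_induction_on with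
      | _ n ih =>
        intro w hw
        by_cases h0 : w = v0
        · rw [h0, hm0]; rfl
        · rw [hstep (⟨w, h0⟩, k)]
          exact ih _ (hw ▸ hdist (⟨w, h0⟩, k)) _ rfl
    apply hv0
    rw [hvm]
    funext j
    exact hall _ _ _ rfl
  have hfin := finite_zeros_exp Finset.univ coef lam hlam.injOn ⟨_, Finset.mem_univ _, hcoef⟩
  refine hfin.subset ?_
  rintro q ⟨hq, hn⟩
  by_contra hne
  apply hn
  have hne' : (M q).det ≠ 0 := by rw [hdet]; exact hne
  have hx : ∀ u w, G.Adj u w → ∃ k, (p u - p w) k ≠ 0 := fun u w h =>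
    ⟨⟨0, hd⟩, sub_ne_zero.2 (hp.ne u w _ h.ne)⟩
  refine ⟨fun u w h => (lq_deriv hq (hx u w h)).1, fun m hm => ?_⟩
  let m' : V → Fin d → ℝ := fun w => m w - m v0
  have hm0 : m' v0 = 0 := sub_self _
  have hz : (M q).mulVec (fun j => m' j.1.1 j.2) = 0 := by
    funext i
    have h1 := (lq_deriv hq (hx _ _ (hle _ (hpar i)))).2 _ (hm _ _ (hle _ (hpar i)))
    change (∑ l, (|Δ i l| ^ (q - 2) * Δ i l) • r i l) ⬝ᵥ _ = 0
    rw [sum_dotProduct, ← h1]
    refine Finset.sum_congr rfl fun l _ => ?_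
    rw [smul_dotProduct, incRow_dot _ _ _ _ _ hm0]
    simp only [smul_eq_mul, m', Δ, Pi.sub_apply]
    ring
  have hv := Matrix.eq_zero_of_mulVec_eq_zero hne' hz
  have hall : ∀ w, m w = m v0 := by
    intro w
    by_cases h0 : w = v0
    · rw [h0]
    · funext l
      exact sub_eq_zero.1 (congrFun hv (⟨w, h0⟩, l))
  intro u w
  rw [hall u, hall w]

theorem finite_bad_redundant {V : Type} [Fintype V] [DecidableEq V] {d : ℕ} (hd : 0 < d)
    {G : SimpleGraph V} (hG : HamiltonDecomposable d G) {p : V → Fin d → ℝ} (hp : Generic p) :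
    {q : ℝ | 1 < q ∧ ¬ RedundantlyRigid (ENNReal.ofReal q) d G p}.Finite := by
  classical
  obtain ⟨x, H, hH, hu⟩ := hG
  let C : Fin d → SimpleGraph V := fun k => SimpleGraph.fromEdgeSet {e | e ∈ (H k).edges}
  have hadj : ∀ k u w, (C k).Adj u w ↔ s(u, w) ∈ (H k).edges := by
    intro k u w
    simp only [C, SimpleGraph.fromEdgeSet_adj, Set.mem_ofPred_eq]
    exact ⟨fun h => h.1, fun h => ⟨h, ((H k).adj_of_mem_edges h).ne⟩⟩
  have htr : ∀ k, ∀ e ∈ (H k).edges, e ∈ (C k).edgeSet := by
    intro k e he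
    induction e with
    | h u w => exact (hadj k u w).2 he
  have hham : ∀ k, (C k).IsHamiltonian := by
    intro k _
    refine ⟨x k, (H k).transfer (C k) (htr k), ?_⟩
    rw [SimpleGraph.Walk.isHamiltonianCycle_iff_isCycle_and_length_eq]
    exact ⟨(hH k).isCycle.transfer _, by rw [SimpleGraph.Walk.length_transfer, (hH k).length_eq]⟩
  have hle : ∀ k, C k ≤ G := fun k u w h => (H k).adj_of_mem_edges ((hadj k u w).1 h)
  have hdis : ∀ u w k l, (C k).Adj u w → (C l).Adj u w → k = l := fun u w k l h1 h2 =>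
    (hu s(u, w) (hle k h1)).unique ((hadj k u w).1 h1) ((hadj l u w).1 h2)
  have h0 := finite_bad hd C (fun k => (hham k).connected) hle hdis hp
  have h1 : ∀ e : Sym2 V,
      {q : ℝ | 1 < q ∧ ¬ Rigid (ENNReal.ofReal q) d (G.deleteEdges {e}) p}.Finite := by
    intro e
    refine finite_bad hd (fun k => (C k).deleteEdges {e}) (fun k => ?_) (fun k => ?_) ?_ hp
    · induction e with
      | h u w =>
        exact (hham k).connected.connected_delete_edge_of_not_isBridge
          fun hb => hb.not_isHamiltonian (hham k)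
    · intro u w h
      rw [SimpleGraph.deleteEdges_adj] at h ⊢
      exact ⟨hle k h.1, h.2⟩
    · intro u w k l h1 h2
      rw [SimpleGraph.deleteEdges_adj] at h1 h2
      exact hdis u w k l h1.1 h2.1
  refine (h0.union (Set.finite_iUnion h1)).subset ?_
  rintro q ⟨hq, hn⟩
  by_cases h : Rigid (ENNReal.ofReal q) d G p
  · right
    have : ¬ ∀ e ∈ G.edgeSet, Rigid (ENNReal.ofReal q) d (G.deleteEdges {e}) p := fun h' =>
      hn ⟨h, h'⟩
    push Not at this
    obtain ⟨e, -, he⟩ := this
    exact Set.mem_iUnion.2 ⟨e, hq, he⟩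
  · exact Or.inl ⟨hq, h⟩

end Pool.Agent.MP_7ac2f5_co

end
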